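import Mathlib
import Pool.Agent.Run7.h720.ExMain

set_option autoImplicit false

/-!
# Values of polynomials with three simple roots at sparse integers are far from being powerful

Let `P` be an integer polynomial with `s ≥ 3` simple complex roots, `K` a number field and `Γ` a
finitely generated subgroup of its multiplicative group. We call an integer short if it is a sum of
`r` terms `c * γ` with `γ` in `Γ` and `c` in `K` of height at most `B * |n| ^ δ`. Suppose that `n` is
short and that there is a short integer `ρ` and an arbitrary integer `c ≠ 0` with `ρ ^ 2 ∣ c * P n` and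
`P n ∣ ρ ^ m`. We prove `|c| > |n| ^ (s - 2 - ε)`, up to finitely many `n`, if `δ` is small enough.

Every nonzero integer is of the form `N = a ^ 2 * b ^ 3 * c`, and then `ρ = a * b * c` has these
properties (with `m = 3`). The nonzero integer `N` is powerful if and only if one can take `c = 1`.
-/

namespace Pool.Agent.Results.MP_c4b31a_nt.SparseExcess

/-- `z` is a simple root of `P`: a root which is not a root of the derivative -/
def IsSimpleRoot (P : Polynomial ℤ) (z : ℂ) : Prop :=
  Polynomial.aeval z P = 0 ∧ Polynomial.aeval z (Polynomial.derivative P) ≠ 0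

/-- The integer `z` is a sum of `r` terms `c * γ`, where `γ` is in `Γ` and `c` is an element of `K` of
(multiplicative) height at most `R`. -/
def IsShort {K : Type} [Field K] [NumberField K] (Γ : Subgroup Kˣ) (r : ℕ) (R : ℝ) (z : ℤ) : Prop :=
  ∃ (c : Fin r → K) (γ : Fin r → Kˣ), (∀ j, γ j ∈ Γ) ∧ (∀ j, Height.mulHeight₁ (c j) ≤ R) ∧
    (z : K) = ∑ j, c j * (γ j : K)

/-- **Main theorem.** Let `P` be an integer polynomial with `s ≥ 3` simple complex roots. For every
number field `K`, every finitely generated subgroup `Γ` of its multiplicative group, all natural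
numbers `r`, `m`, every real `B` and every `ε > 0` there is `δ > 0` such that only finitely many
integers `n` have the following property: there are integers `ρ` and `c ≠ 0` with
`|c| ≤ |n| ^ (s - 2 - ε)`, `ρ ^ 2 ∣ c * P n` and `P n ∣ ρ ^ m` such that `n` and `ρ` are sums of `r`
terms `x * γ` with `γ` in `Γ` and `x` in `K` of height at most `B * |n| ^ δ`. -/
theorem result (P : Polynomial ℤ) (hP : 3 ≤ {z : ℂ | IsSimpleRoot P z}.ncard)
    (K : Type) [Field K] [NumberField K] (Γ : Subgroup Kˣ) (hΓ : Γ.FG) (r m : ℕ) (B ε : ℝ)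
    (hε : 0 < ε) :
    ∃ δ : ℝ, 0 < δ ∧ {n : ℤ | ∃ ρ c : ℤ, c ≠ 0 ∧
      |(c : ℝ)| ≤ |(n : ℝ)| ^ (({z : ℂ | IsSimpleRoot P z}.ncard : ℝ) - 2 - ε) ∧
      ρ ^ 2 ∣ c * P.eval n ∧ P.eval n ∣ ρ ^ m ∧
      IsShort Γ r (B * |(n : ℝ)| ^ δ) n ∧ IsShort Γ r (B * |(n : ℝ)| ^ δ) ρ}.Finite := by
  have hfin : {z : ℂ | IsSimpleRoot P z}.Finite := Set.finite_of_ncard_pos (by omega)
  have hc : Nat.card {z : ℂ | IsSimpleRoot P z} = {z : ℂ | IsSimpleRoot P z}.ncard := rfl
  have : Finite {z : ℂ | IsSimpleRoot P z} := hfin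
  obtain ⟨e⟩ : Nonempty ({z : ℂ | IsSimpleRoot P z} ≃ Fin {z : ℂ | IsSimpleRoot P z}.ncard) :=
    ⟨Finite.equivFinOfCardEq hc⟩
  exact Pool.Agent.Run7.h720.excess_main P _ (by omega) (fun i => (e.symm i : ℂ))
    (Subtype.val_injective.comp e.symm.injective) (fun i => (e.symm i).2.1)
    (fun i => (e.symm i).2.2) K Γ hΓ r m B ε hε

end Pool.Agent.Results.MP_c4b31a_nt.SparseExcess
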